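import Pool.Agent.H96.RK.Upper

set_option autoImplicit false

/-!
Deleting few vertices blocks few positions.
-/

namespace Pool.Agent.H96.RK

open Pool.Agent.H49.Res Finset

variable {V : Type*} [DecidableEq V] {m f a b h τ : ℕ}

/-- The occupied groups of a cell. -/
def Config.occ (C : Config V m f a b h τ) (T : Finset V) (c : ZMod (7 * m)) : Finset Pt :=
  Finset.univ.filter (fun z => τ ≤ (T ∩ C.G c z).card)

/-- The position `p` is blocked. -/
def Config.Blocked (C : Config V m f a b h τ) (T : Finset V) (p : ZMod (7 * m)) : Prop :=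
  ∃ j : Fin 4, Blocks (C.occ T (p - (off j : ℕ))) j

variable [NeZero (7 * m)]

open Classical in
/-- The set of blocked positions. -/
noncomputable def Config.blk (C : Config V m f a b h τ) (T : Finset V) :
    Finset (ZMod (7 * m)) := Finset.univ.filter (C.Blocked T)

lemma Config.mem_blk (C : Config V m f a b h τ) (T : Finset V) (p : ZMod (7 * m)) :
    p ∈ C.blk T ↔ C.Blocked T p := by
  classical
  rw [Config.blk, Finset.mem_filter]
  exact and_iff_right (Finset.mem_univ p)

lemma Config.card_blk (C : Config V m f a b h τ) (T : Finset V) :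
    (C.blk T).card ≤ ∑ c : ZMod (7 * m), beta (C.occ T c) := by
  classical
  have h1 : C.blk T ⊆ ((Finset.univ : Finset (ZMod (7 * m))).sigma
      (fun c => Finset.univ.filter (Blocks (C.occ T c)))).image
      (fun x => x.1 + (off x.2 : ℕ)) := by
    intro p hp
    rw [Config.mem_blk] at hp
    obtain ⟨j, hj⟩ := hp
    rw [Finset.mem_image]
    refine ⟨⟨p - (off j : ℕ), j⟩, ?_, ?_⟩
    · rw [Finset.mem_sigma]
      exact ⟨Finset.mem_univ _, Finset.mem_filter.2 ⟨Finset.mem_univ _, hj⟩⟩
    · simp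
  refine (Finset.card_le_card h1).trans (Finset.card_image_le.trans ?_)
  rw [Finset.card_sigma]
  exact le_of_eq rfl

/-- The parts of a set. -/
lemma Config.sum_parts_le (C : Config V m f a b h τ) (T : Finset V) :
    (T ∩ C.A).card + ∑ o : ZMod 7, (T ∩ C.B o).card +
      ∑ c : ZMod (7 * m), ∑ z : Pt, (T ∩ C.G c z).card ≤ T.card := by
  classical
  have hB : ((Finset.univ : Finset (ZMod 7)).biUnion (fun o => T ∩ C.B o)).card =
      ∑ o : ZMod 7, (T ∩ C.B o).card := by
    apply Finset.card_biUnion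
    intro o _ o' _ hne
    exact (C.BB o o' hne).mono Finset.inter_subset_right Finset.inter_subset_right
  have hG : ((Finset.univ : Finset (ZMod (7 * m) × Pt)).biUnion
      (fun x => T ∩ C.G x.1 x.2)).card =
      ∑ c : ZMod (7 * m), ∑ z : Pt, (T ∩ C.G c z).card := by
    rw [Finset.card_biUnion, ← Finset.univ_product_univ, Finset.sum_product]
    intro x _ y _ hne
    exact (C.G_disj x.1 x.2 y.1 y.2 hne).mono Finset.inter_subset_right
      Finset.inter_subset_right
  rw [← hB, ← hG, ← Finset.card_union_of_disjoint, ← Finset.card_union_of_disjoint]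
  · apply Finset.card_le_card
    intro x hx
    rw [Finset.mem_union, Finset.mem_union, Finset.mem_biUnion, Finset.mem_biUnion] at hx
    rcases hx with (hx | ⟨o, -, hx⟩) | ⟨y, -, hx⟩
    · exact (Finset.mem_inter.1 hx).1
    · exact (Finset.mem_inter.1 hx).1
    · exact (Finset.mem_inter.1 hx).1
  · rw [Finset.disjoint_left]
    intro x hx hx'
    rw [Finset.mem_union, Finset.mem_biUnion] at hx
    rw [Finset.mem_biUnion] at hx'
    obtain ⟨y, -, hy⟩ := hx'
    rcases hx with hx | ⟨o, -, hx⟩
    · exact Finset.disjoint_left.1 (C.AG y.1 y.2) (Finset.mem_inter.1 hx).2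
        (Finset.mem_inter.1 hy).2
    · exact Finset.disjoint_left.1 (C.BG o y.1 y.2) (Finset.mem_inter.1 hx).2
        (Finset.mem_inter.1 hy).2
  · rw [Finset.disjoint_left]
    intro x hx hx'
    rw [Finset.mem_biUnion] at hx'
    obtain ⟨o, -, hy⟩ := hx'
    exact Finset.disjoint_left.1 (C.AB o) (Finset.mem_inter.1 hx).2 (Finset.mem_inter.1 hy).2

lemma Config.occ_le (C : Config V m f a b h τ) (T : Finset V) :
    τ * ∑ c : ZMod (7 * m), (C.occ T c).card ≤
      ∑ c : ZMod (7 * m), ∑ z : Pt, (T ∩ C.G c z).card := by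
  rw [Finset.mul_sum]
  apply Finset.sum_le_sum
  intro c _
  have h1 : ∑ _z ∈ C.occ T c, τ ≤ ∑ z ∈ C.occ T c, (T ∩ C.G c z).card :=
    Finset.sum_le_sum (fun z hz => (Finset.mem_filter.1 hz).2)
  rw [Finset.sum_const, smul_eq_mul, mul_comm] at h1
  exact h1.trans (Finset.sum_le_univ_sum_of_nonneg (fun _ => Nat.zero_le _))

open Classical in
/-- The number of blocked positions of a class. -/
noncomputable def Config.nblk (C : Config V m f a b h τ) (T : Finset V) (o : ZMod 7) : ℕ :=
  ((C.blk T).filter (fun p => cls p = o)).card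

lemma Config.sum_nblk (C : Config V m f a b h τ) (T : Finset V) :
    ∑ o : ZMod 7, C.nblk T o = (C.blk T).card := by
  classical
  rw [Finset.card_eq_sum_card_fiberwise (f := cls) (t := (Finset.univ : Finset (ZMod 7)))
    (fun _ _ => Finset.mem_coe.2 (Finset.mem_univ _))]
  rfl

lemma Config.sum_beta_le (C : Config V m f a b h τ) (T : Finset V) :
    ∑ c : ZMod (7 * m), beta (C.occ T c) ≤ ∑ c : ZMod (7 * m), (C.occ T c).card :=
  Finset.sum_le_sum (fun _ _ => (beta_le _).1)

lemma Config.fifteen (C : Config V m f a b h τ) (T : Finset V)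
    (h14 : 14 ≤ ∑ c : ZMod (7 * m), beta (C.occ T c)) :
    15 ≤ ∑ c : ZMod (7 * m), (C.occ T c).card := by
  by_contra hcon
  have h1 := C.sum_beta_le T
  have heq : ∑ c : ZMod (7 * m), beta (C.occ T c) = ∑ c : ZMod (7 * m), (C.occ T c).card := by
    omega
  have h2 := (Finset.sum_eq_sum_iff_of_le (fun c _ => (beta_le (C.occ T c)).1)).1 heq
  have h3 : 3 ∣ ∑ c : ZMod (7 * m), (C.occ T c).card := by
    apply Finset.dvd_sum
    intro c hc
    rcases (beta_le (C.occ T c)).2 (h2 c hc) with h0 | h3
    · rw [h0]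
      exact dvd_zero 3
    · rw [h3]
  omega

/-- Second kind of good class. -/
lemma Config.good_two (C : Config V m f a b h τ) (hb2 : 2 * τ ≤ b) (hb3 : b ≤ 3 * τ)
    (T : Finset V) (hT : T.card + 1 ≤ 12 * τ + b) :
    ∃ o, (T ∩ C.B o).card + 1 ≤ b ∧ C.nblk T o ≤ 1 := by
  classical
  by_contra hcon
  push Not at hcon
  have hparts := C.sum_parts_le T
  have hocc := C.occ_le T
  have hcard := C.card_blk T
  have hbeta := C.sum_beta_le T
  have h15 := C.fifteen T
  rw [← C.sum_nblk T] at hcard
  set J := (Finset.univ : Finset (ZMod 7)).filter (fun o => (T ∩ C.B o).card + 1 ≤ b) with hJ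
  have hJ7 : J.card + (Finset.univ.filter (fun o => ¬ (T ∩ C.B o).card + 1 ≤ b)).card = 7 := by
    rw [hJ, Finset.card_filter_add_card_filter_not, Finset.card_univ, ZMod.card]
  have h1 : 2 * J.card ≤ ∑ o : ZMod 7, C.nblk T o := by
    have : ∑ o ∈ J, 2 ≤ ∑ o ∈ J, C.nblk T o := by
      apply Finset.sum_le_sum
      intro o ho
      have := hcon o (Finset.mem_filter.1 ho).2
      omega
    rw [Finset.sum_const, smul_eq_mul, mul_comm] at this
    exact this.trans (Finset.sum_le_univ_sum_of_nonneg (fun _ => Nat.zero_le _))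
  have h2 : b * (7 - J.card) ≤ ∑ o : ZMod 7, (T ∩ C.B o).card := by
    have : ∑ o ∈ Finset.univ.filter (fun o => ¬ (T ∩ C.B o).card + 1 ≤ b), b ≤
        ∑ o ∈ Finset.univ.filter (fun o => ¬ (T ∩ C.B o).card + 1 ≤ b), (T ∩ C.B o).card := by
      apply Finset.sum_le_sum
      intro o ho
      have := (Finset.mem_filter.1 ho).2
      omega
    rw [Finset.sum_const, smul_eq_mul, mul_comm] at this
    have hc : (Finset.univ.filter (fun o => ¬ (T ∩ C.B o).card + 1 ≤ b)).card = 7 - J.card := by
      omega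
    rw [hc] at this
    exact this.trans (Finset.sum_le_univ_sum_of_nonneg (fun _ => Nat.zero_le _))
  have hj : J.card ≤ 7 := by omega
  generalize J.card = j at *
  generalize ∑ c : ZMod (7 * m), (C.occ T c).card = R at *
  have h3 : τ * (2 * j) ≤ τ * R := Nat.mul_le_mul_left _ (by omega)
  interval_cases j
  · omega
  · omega
  · omega
  · omega
  · omega
  · omega
  · omega
  · have h4 : τ * 15 ≤ τ * R := Nat.mul_le_mul_left _ (h15 (by omega))
    omega

/-- First kind of good class. -/
lemma Config.good_one (C : Config V m f a b h τ) (hh : h ≤ τ)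
    (T : Finset V) (hT : T.card + 1 ≤ a + 7 * h) (hTA : a ≤ (T ∩ C.A).card) :
    ∃ o, (T ∩ C.B o).card + 1 ≤ h ∧ C.nblk T o = 0 := by
  classical
  by_contra hcon
  push Not at hcon
  have hparts := C.sum_parts_le T
  have hocc := C.occ_le T
  have hcard := C.card_blk T
  have hbeta := C.sum_beta_le T
  rw [← C.sum_nblk T] at hcard
  have h1 : ∑ o : ZMod 7, h ≤ ∑ o : ZMod 7, ((T ∩ C.B o).card + h * C.nblk T o) := by
    apply Finset.sum_le_sum
    intro o _
    rcases Nat.lt_or_ge (T ∩ C.B o).card h with hlt | hge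
    · have h2 := hcon o hlt
      have h3 : h * 1 ≤ h * C.nblk T o := Nat.mul_le_mul_left _ (Nat.one_le_iff_ne_zero.2 h2)
      omega
    · omega
  rw [Finset.sum_add_distrib, ← Finset.mul_sum, Finset.sum_const, smul_eq_mul,
    Finset.card_univ, ZMod.card] at h1
  have h2 : h * ∑ o : ZMod 7, C.nblk T o ≤ τ * ∑ c : ZMod (7 * m), (C.occ T c).card :=
    Nat.mul_le_mul hh (hcard.trans hbeta)
  omega

end Pool.Agent.H96.RK
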