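import Pool.Agent.H96.RK.Blocked

set_option autoImplicit false

/-!
Building matchings that avoid a given set.
-/

namespace Pool.Agent.H96.RK

open Pool.Agent.H49.Res Finset

/-- Cutting a set into pieces of the same size. -/
lemma exists_pieces {V : Type*} [DecidableEq V] (c x : ℕ) :
    ∀ U : Finset V, c * x ≤ U.card → ∃ g : ℕ → Finset V, (∀ i < x, g i ⊆ U ∧ (g i).card = c) ∧
      ∀ i < x, ∀ j < x, i ≠ j → Disjoint (g i) (g j) := by
  induction x with
  | zero =>
    intro U _
    exact ⟨fun _ => ∅, fun i hi => absurd hi (Nat.not_lt_zero i),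
      fun i hi => absurd hi (Nat.not_lt_zero i)⟩
  | succ x ih =>
    intro U hU
    obtain ⟨S, hS, hSc⟩ := Finset.exists_subset_card_eq (s := U) (n := c)
      (le_trans (Nat.le_mul_of_pos_right c (Nat.succ_pos x)) hU)
    have h1 : c * x ≤ (U \ S).card := by
      rw [Finset.card_sdiff_of_subset hS, hSc]
      have : c * (x + 1) = c * x + c := by ring
      omega
    obtain ⟨g, hg, hgd⟩ := ih (U \ S) h1
    refine ⟨fun i => if i = x then S else g i, ?_, ?_⟩
    · intro i hi
      by_cases hix : i = x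
      · simp only [hix, if_true]
        exact ⟨hS, hSc⟩
      · simp only [hix, if_false]
        have := hg i (by omega)
        exact ⟨this.1.trans Finset.sdiff_subset, this.2⟩
    · intro i hi j hj hij
      by_cases hix : i = x
      · have hjx : j ≠ x := fun h => hij (hix.trans h.symm)
        simp only [hix, hjx, if_true, if_false]
        exact (Finset.disjoint_of_subset_left (hg j (by omega)).1 Finset.sdiff_disjoint).symm
      · by_cases hjx : j = x
        · simp only [hix, hjx, if_true, if_false]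
          exact Finset.disjoint_of_subset_left (hg i (by omega)).1 Finset.sdiff_disjoint
        · simp only [hix, hjx, if_false]
          exact hgd i (by omega) j (by omega) hij

/-- A family of nonempty disjoint sets is a matching. -/
lemma matching_of_family {V ι : Type*} [DecidableEq V] (I : Finset ι)
    (Φ : ι → Finset V) (hd : ∀ i ∈ I, ∀ j ∈ I, i ≠ j → Disjoint (Φ i) (Φ j))
    (hne : ∀ i ∈ I, (Φ i).Nonempty) :
    IsMatching (I.image Φ) ∧ (I.image Φ).card = I.card := by
  classical
  constructor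
  · intro E hE E' hE' hEE
    rw [Finset.mem_image] at hE hE'
    obtain ⟨i, hi, rfl⟩ := hE
    obtain ⟨j, hj, rfl⟩ := hE'
    exact hd i hi j hj (fun h => hEE (by rw [h]))
  · apply Finset.card_image_of_injOn
    intro i hi j hj hij
    by_contra hne'
    have h1 := hd i hi j hj hne'
    rw [hij, disjoint_self] at h1
    exact (hne j hj).ne_empty h1

variable {V : Type*} [DecidableEq V] {m f a b h τ : ℕ}

lemma off_cls : ∀ i j : Fin 4, ((off i : ℕ) : ZMod 7) = ((off j : ℕ) : ZMod 7) → i = j := by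
  decide

lemma cell_eq {p q : ZMod (7 * m)} {i j : Fin 4} (hpq : cls p = cls q)
    (he : p - ((off i : ℕ) : ZMod (7 * m)) = q - ((off j : ℕ) : ZMod (7 * m))) :
    i = j ∧ p = q := by
  have h1 : cls (p - ((off i : ℕ) : ZMod (7 * m))) = cls (q - ((off j : ℕ) : ZMod (7 * m))) := by
    rw [he]
  rw [map_sub, map_sub, map_natCast, map_natCast, hpq] at h1
  have h2 : i = j := off_cls i j (sub_right_injective h1)
  subst h2
  exact ⟨rfl, sub_left_injective he⟩

/-- A sparse edge at an unblocked position. -/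
lemma Config.exists_sparse (C : Config V m f a b h τ) (T : Finset V) (p : ZMod (7 * m))
    (hp : ¬ C.Blocked T p) (hW : b ≤ (C.W p \ T).card) :
    ∃ S K : Finset V, S ⊆ C.W p \ T ∧ S.card = b ∧ K.card = 12 * τ ∧ Disjoint S K ∧
      Disjoint K T ∧ C.Sparse p (S ∪ K) ∧
      (∀ x ∈ K, ∃ j z, x ∈ C.G (p - (off j : ℕ)) z) := by
  classical
  obtain ⟨S, hS, hSc⟩ := Finset.exists_subset_card_eq hW
  have hline : ∀ j : Fin 4, ∃ v : Fin 3, ∀ z, phi j z = v →
      τ ≤ (C.G (p - (off j : ℕ)) z \ T).card := by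
    intro j
    have h1 : ¬ Blocks (C.occ T (p - (off j : ℕ))) j := fun h => hp ⟨j, h⟩
    rw [Blocks] at h1
    push Not at h1
    obtain ⟨v, hv⟩ := h1
    refine ⟨v, fun z hz => ?_⟩
    have h2 : z ∉ C.occ T (p - (off j : ℕ)) := fun h => hv z h hz
    rw [Config.occ, Finset.mem_filter, not_and] at h2
    have h3 := h2 (Finset.mem_univ z)
    have h4 := Finset.card_sdiff_add_card_inter (C.G (p - (off j : ℕ)) z) T
    have h5 := C.cardG (p - (off j : ℕ)) z
    rw [Finset.inter_comm] at h4
    omega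
  choose v hv using hline
  have hK : ∀ (j : Fin 4) (z : Pt), ∃ K : Finset V, K ⊆ C.G (p - (off j : ℕ)) z \ T ∧
      (phi j z = v j → K.card = τ) := by
    intro j z
    by_cases hz : phi j z = v j
    · obtain ⟨K, hK, hKc⟩ := Finset.exists_subset_card_eq (hv j z hz)
      exact ⟨K, hK, fun _ => hKc⟩
    · exact ⟨∅, Finset.empty_subset _, fun h => absurd h hz⟩
  choose K hK hKc using hK
  set I : Finset (Fin 4 × Pt) := Finset.univ.filter (fun x => phi x.1 x.2 = v x.1) with hI
  have hIc : I.card = 12 := by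
    have h1 : I.card = ∑ j : Fin 4, (Finset.univ.filter (fun z : Pt => phi j z = v j)).card := by
      rw [hI, Finset.card_filter, ← Finset.univ_product_univ, Finset.sum_product]
      apply Finset.sum_congr rfl
      intro j _
      rw [Finset.card_filter]
    rw [h1, Finset.sum_congr rfl (fun j _ => line_card j (v j))]
    simp
  have hKd : ∀ x ∈ I, ∀ y ∈ I, x ≠ y → Disjoint (K x.1 x.2) (K y.1 y.2) := by
    intro x _ y _ hxy
    refine (C.G_disj (p - (off x.1 : ℕ)) x.2 (p - (off y.1 : ℕ)) y.2 ?_).mono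
      ((hK _ _).trans Finset.sdiff_subset) ((hK _ _).trans Finset.sdiff_subset)
    intro he
    rw [Prod.mk.injEq] at he
    have h1 := cell_eq rfl he.1
    exact hxy (Prod.ext h1.1 he.2)
  refine ⟨S, I.biUnion (fun x => K x.1 x.2), hS, hSc, ?_, ?_, ?_, ⟨?_, ?_⟩, ?_⟩
  · rw [Finset.card_biUnion hKd]
    rw [Finset.sum_congr rfl (fun x hx => hKc x.1 x.2 (Finset.mem_filter.1 hx).2)]
    rw [Finset.sum_const, hIc, smul_eq_mul]
  · rw [Finset.disjoint_biUnion_right]
    intro x _
    exact (C.BG (cls p) _ _).mono ((hS.trans Finset.sdiff_subset).trans (C.W_sub p))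
      ((hK x.1 x.2).trans Finset.sdiff_subset)
  · rw [Finset.disjoint_biUnion_left]
    intro x _
    exact Finset.disjoint_of_subset_left (hK x.1 x.2) Finset.sdiff_disjoint
  · refine le_trans (le_of_eq hSc.symm) (Finset.card_le_card ?_)
    intro x hx
    exact Finset.mem_inter.2 ⟨Finset.mem_union_left _ hx,
      (Finset.mem_sdiff.1 (hS hx)).1⟩
  · intro j
    refine ⟨v j, fun z hz => ?_⟩
    refine le_trans (le_of_eq (hKc j z hz).symm) (Finset.card_le_card ?_)
    intro x hx
    refine Finset.mem_inter.2 ⟨Finset.mem_union_right _ ?_, (Finset.mem_sdiff.1 (hK j z hx)).1⟩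
    rw [Finset.mem_biUnion]
    exact ⟨(j, z), Finset.mem_filter.2 ⟨Finset.mem_univ _, hz⟩, hx⟩
  · intro x hx
    rw [Finset.mem_biUnion] at hx
    obtain ⟨y, -, hy⟩ := hx
    exact ⟨y.1, y.2, (Finset.mem_sdiff.1 (hK y.1 y.2 hy)).1⟩

/-- A matching avoiding `T`. -/
lemma Config.exists_matching (C : Config V m f a b h τ) (hk : 12 * τ + b = a + 7 * h)
    (hpos : 1 ≤ b) (T : Finset V) (o : ZMod 7) (Q : Finset (ZMod (7 * m))) (x : ℕ)
    (hQ : ∀ p ∈ Q, cls p = o ∧ ¬ C.Blocked T p ∧ b ≤ (C.W p \ T).card)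
    (hA : a * x ≤ (C.A \ T).card) (hB : ∀ o', o' ≠ o → h * x ≤ (C.B o' \ T).card)
    (hBo : h * x + b * Q.card ≤ (C.B o \ T).card) :
    ∃ M : Finset (Finset V), IsMatching M ∧ M.card = Q.card + x ∧
      ∀ E ∈ M, E.card = 12 * τ + b ∧ Disjoint E T ∧ (C.Dense E ∨ ∃ p, C.Sparse p E) := by
  classical
  have hsp : ∀ p : ZMod (7 * m), ∃ S K : Finset V, p ∈ Q → (S ⊆ C.W p \ T ∧ S.card = b ∧
      K.card = 12 * τ ∧ Disjoint S K ∧ Disjoint K T ∧ C.Sparse p (S ∪ K) ∧
      (∀ x ∈ K, ∃ j z, x ∈ C.G (p - (off j : ℕ)) z)) := by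
    intro p
    by_cases hp : p ∈ Q
    · obtain ⟨S, K, h1⟩ := C.exists_sparse T p (hQ p hp).2.1 (hQ p hp).2.2
      exact ⟨S, K, fun _ => h1⟩
    · exact ⟨∅, ∅, fun h => absurd h hp⟩
  choose S K hSK using hsp
  set SS : Finset V := Q.biUnion S with hSS
  have hSSc : SS.card ≤ b * Q.card := by
    rw [mul_comm]
    exact Finset.card_biUnion_le_card_mul _ _ _ (fun p hp => le_of_eq (hSK p hp).2.1)
  have hSSB : ∀ o', o' ≠ o → Disjoint SS (C.B o') := by
    intro o' ho'
    rw [hSS, Finset.disjoint_biUnion_left]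
    intro p hp
    refine (C.BB o o' (Ne.symm ho')).mono_left ?_
    rw [← (hQ p hp).1]
    exact ((hSK p hp).1.trans Finset.sdiff_subset).trans (C.W_sub p)
  have hBU : ∀ o', h * x ≤ ((C.B o' \ T) \ SS).card := by
    intro o'
    by_cases ho' : o' = o
    · subst ho'
      have := Finset.le_card_sdiff SS (C.B o' \ T)
      omega
    · have h1 : (C.B o' \ T) \ SS = C.B o' \ T := by
        apply Finset.sdiff_eq_self_of_disjoint
        exact ((hSSB o' ho').symm).mono_left Finset.sdiff_subset
      rw [h1]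
      exact hB o' ho'
  obtain ⟨gA, hgA, hgAd⟩ := exists_pieces a x _ hA
  have hgB := fun o' => exists_pieces h x _ (hBU o')
  choose gB hgB hgBd using hgB
  set De : ℕ → Finset V := fun i => gA i ∪ Finset.univ.biUnion (fun o' => gB o' i) with hDe
  have hAB' : ∀ i < x, ∀ o', Disjoint (gA i) (gB o' i) := by
    intro i hi o'
    exact (C.AB o').mono ((hgA i hi).1.trans Finset.sdiff_subset)
      (((hgB o' i hi).1.trans Finset.sdiff_subset).trans Finset.sdiff_subset)
  have hDecard : ∀ i < x, (De i).card = 12 * τ + b := by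
    intro i hi
    rw [hDe]
    simp only
    rw [Finset.card_union_of_disjoint, Finset.card_biUnion, (hgA i hi).2,
      Finset.sum_congr rfl (fun o' _ => (hgB o' i hi).2), Finset.sum_const, smul_eq_mul,
      Finset.card_univ, ZMod.card, hk]
    · intro o1 _ o2 _ hne
      exact (C.BB o1 o2 hne).mono
        (((hgB o1 i hi).1.trans Finset.sdiff_subset).trans Finset.sdiff_subset)
        (((hgB o2 i hi).1.trans Finset.sdiff_subset).trans Finset.sdiff_subset)
    · rw [Finset.disjoint_biUnion_right]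
      intro o' _
      exact hAB' i hi o'
  have hDeT : ∀ i < x, Disjoint (De i) T := by
    intro i hi
    rw [hDe]
    simp only
    rw [Finset.disjoint_union_left, Finset.disjoint_biUnion_left]
    refine ⟨Finset.disjoint_of_subset_left (hgA i hi).1 Finset.sdiff_disjoint, fun o' _ => ?_⟩
    exact Finset.disjoint_of_subset_left ((hgB o' i hi).1.trans Finset.sdiff_subset)
      Finset.sdiff_disjoint
  have hDense : ∀ i < x, C.Dense (De i) := by
    intro i hi
    constructor
    · refine le_trans (le_of_eq (hgA i hi).2.symm) (Finset.card_le_card ?_)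
      intro y hy
      exact Finset.mem_inter.2 ⟨Finset.mem_union_left _ hy,
        (Finset.mem_sdiff.1 ((hgA i hi).1 hy)).1⟩
    · intro o'
      refine le_trans (le_of_eq (hgB o' i hi).2.symm) (Finset.card_le_card ?_)
      intro y hy
      refine Finset.mem_inter.2 ⟨Finset.mem_union_right _ ?_, ?_⟩
      · exact Finset.mem_biUnion.2 ⟨o', Finset.mem_univ _, hy⟩
      · exact (Finset.mem_sdiff.1 (Finset.mem_sdiff.1 ((hgB o' i hi).1 hy)).1).1
  have hDed : ∀ i < x, ∀ j < x, i ≠ j → Disjoint (De i) (De j) := by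
    intro i hi j hj hij
    rw [hDe]
    simp only
    rw [Finset.disjoint_union_left, Finset.disjoint_union_right, Finset.disjoint_union_right]
    refine ⟨⟨hgAd i hi j hj hij, ?_⟩, ?_, ?_⟩
    · rw [Finset.disjoint_biUnion_right]
      intro o' _
      exact (C.AB o').mono ((hgA i hi).1.trans Finset.sdiff_subset)
        (((hgB o' j hj).1.trans Finset.sdiff_subset).trans Finset.sdiff_subset)
    · rw [Finset.disjoint_biUnion_left]
      intro o' _
      exact ((C.AB o').mono ((hgA j hj).1.trans Finset.sdiff_subset)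
        (((hgB o' i hi).1.trans Finset.sdiff_subset).trans Finset.sdiff_subset)).symm
    · rw [Finset.disjoint_biUnion_left]
      intro o1 _
      rw [Finset.disjoint_biUnion_right]
      intro o2 _
      by_cases h12 : o1 = o2
      · subst h12
        exact hgBd o1 i hi j hj hij
      · exact (C.BB o1 o2 h12).mono
          (((hgB o1 i hi).1.trans Finset.sdiff_subset).trans Finset.sdiff_subset)
          (((hgB o2 j hj).1.trans Finset.sdiff_subset).trans Finset.sdiff_subset)
  set Φ : ZMod (7 * m) ⊕ ℕ → Finset V := Sum.elim (fun p => S p ∪ K p) De with hΦ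
  set I : Finset (ZMod (7 * m) ⊕ ℕ) := Q.disjSum (Finset.range x) with hI
  have hIc : I.card = Q.card + x := by
    rw [hI, Finset.card_disjSum, Finset.card_range]
  have hSpT : ∀ p ∈ Q, Disjoint (S p ∪ K p) T := by
    intro p hp
    rw [Finset.disjoint_union_left]
    exact ⟨Finset.disjoint_of_subset_left (hSK p hp).1 Finset.sdiff_disjoint,
      (hSK p hp).2.2.2.2.1⟩
  have hSpc : ∀ p ∈ Q, (S p ∪ K p).card = 12 * τ + b := by
    intro p hp
    rw [Finset.card_union_of_disjoint (hSK p hp).2.2.2.1, (hSK p hp).2.1, (hSK p hp).2.2.1]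
    ring
  have hcr : ∀ p ∈ Q, ∀ i < x, Disjoint (S p ∪ K p) (De i) := by
    intro p hp i hi
    have hWB := ((hSK p hp).1.trans Finset.sdiff_subset).trans (C.W_sub p)
    rw [hDe]
    simp only
    rw [Finset.disjoint_union_left, Finset.disjoint_union_right, Finset.disjoint_union_right,
      Finset.disjoint_biUnion_right, Finset.disjoint_biUnion_right]
    refine ⟨⟨?_, fun o' _ => ?_⟩, ?_, fun o' _ => ?_⟩
    · exact (C.AB (cls p)).symm.mono hWB ((hgA i hi).1.trans Finset.sdiff_subset)
    · have h1 : Disjoint SS (gB o' i) :=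
        (Finset.disjoint_of_subset_left (hgB o' i hi).1 Finset.sdiff_disjoint).symm
      exact h1.mono_left (Finset.subset_biUnion_of_mem S hp)
    · rw [Finset.disjoint_left]
      intro y hy hy'
      obtain ⟨j, z, hjz⟩ := (hSK p hp).2.2.2.2.2.2 y hy
      exact Finset.disjoint_left.1 (C.AG _ _) (Finset.mem_sdiff.1 ((hgA i hi).1 hy')).1 hjz
    · rw [Finset.disjoint_left]
      intro y hy hy'
      obtain ⟨j, z, hjz⟩ := (hSK p hp).2.2.2.2.2.2 y hy
      exact Finset.disjoint_left.1 (C.BG o' _ _)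
        (Finset.mem_sdiff.1 (Finset.mem_sdiff.1 ((hgB o' i hi).1 hy')).1).1 hjz
  have hspd : ∀ p ∈ Q, ∀ q ∈ Q, p ≠ q → Disjoint (S p ∪ K p) (S q ∪ K q) := by
    intro p hp q hq hpq
    have hWp := (hSK p hp).1.trans Finset.sdiff_subset
    have hWq := (hSK q hq).1.trans Finset.sdiff_subset
    rw [Finset.disjoint_union_left, Finset.disjoint_union_right, Finset.disjoint_union_right]
    refine ⟨⟨(C.W_disj p q hpq).mono hWp hWq, ?_⟩, ?_, ?_⟩
    · rw [Finset.disjoint_left]
      intro y hy hy'
      obtain ⟨j, z, hjz⟩ := (hSK q hq).2.2.2.2.2.2 y hy'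
      exact Finset.disjoint_left.1 (C.BG (cls p) _ _) (C.W_sub p (hWp hy)) hjz
    · rw [Finset.disjoint_left]
      intro y hy hy'
      obtain ⟨j, z, hjz⟩ := (hSK p hp).2.2.2.2.2.2 y hy
      exact Finset.disjoint_left.1 (C.BG (cls q) _ _) (C.W_sub q (hWq hy')) hjz
    · rw [Finset.disjoint_left]
      intro y hy hy'
      obtain ⟨i, z, hiz⟩ := (hSK p hp).2.2.2.2.2.2 y hy
      obtain ⟨j, w, hjw⟩ := (hSK q hq).2.2.2.2.2.2 y hy'
      refine Finset.disjoint_left.1 (C.G_disj _ z _ w ?_) hiz hjw
      intro he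
      rw [Prod.mk.injEq] at he
      have h1 := cell_eq (((hQ p hp).1).trans ((hQ q hq).1).symm) he.1
      exact hpq h1.2
  obtain ⟨hM, hMc⟩ := matching_of_family I Φ (by
    intro i hi j hj hij
    rcases i with p | i <;> rcases j with q | j
    · rw [hI, Finset.inl_mem_disjSum] at hi hj
      exact hspd p hi q hj (fun h => hij (by rw [h]))
    · rw [hI, Finset.inl_mem_disjSum] at hi
      rw [hI, Finset.inr_mem_disjSum, Finset.mem_range] at hj
      exact hcr p hi j hj
    · rw [hI, Finset.inr_mem_disjSum, Finset.mem_range] at hi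
      rw [hI, Finset.inl_mem_disjSum] at hj
      exact (hcr q hj i hi).symm
    · rw [hI, Finset.inr_mem_disjSum, Finset.mem_range] at hi hj
      exact hDed i hi j hj (fun h => hij (by rw [h]))) (by
    intro i hi
    rw [← Finset.card_pos]
    rcases i with p | i
    · rw [hI, Finset.inl_mem_disjSum] at hi
      have := hSpc p hi
      simp only [hΦ, Sum.elim_inl]
      omega
    · rw [hI, Finset.inr_mem_disjSum, Finset.mem_range] at hi
      have := hDecard i hi
      simp only [hΦ, Sum.elim_inr]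
      omega)
  refine ⟨I.image Φ, hM, hMc.trans hIc, ?_⟩
  intro E hE
  rw [Finset.mem_image] at hE
  obtain ⟨i, hi, rfl⟩ := hE
  rcases i with p | i
  · rw [hI, Finset.inl_mem_disjSum] at hi
    exact ⟨hSpc p hi, hSpT p hi, Or.inr ⟨p, (hSK p hi).2.2.2.2.2.1⟩⟩
  · rw [hI, Finset.inr_mem_disjSum, Finset.mem_range] at hi
    exact ⟨hDecard i hi, hDeT i hi, Or.inl (hDense i hi)⟩

end Pool.Agent.H96.RK
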