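import Pool.Agent.H96.RK.Resilience

set_option autoImplicit false

/-!
Counting the dense edges.
-/

namespace Pool.Agent.H96.RK

open Pool.Agent.H49.Res Finset

variable {V : Type*} [DecidableEq V] {m f a b h τ : ℕ}

lemma Config.count [Fintype V] (C : Config V m f a b h τ) (hk : 12 * τ + b = a + 7 * h) :
    C.A.card.choose a * ∏ o : ZMod 7, (C.B o).card.choose h ≤ C.fam.card := by
  classical
  have h1 : ((Finset.powersetCard a C.A) ×ˢ
      (Fintype.piFinset (fun o : ZMod 7 => Finset.powersetCard h (C.B o)))).card =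
      C.A.card.choose a * ∏ o : ZMod 7, (C.B o).card.choose h := by
    rw [Finset.card_product, Finset.card_powersetCard, Fintype.card_piFinset]
    congr 1
    apply Finset.prod_congr rfl
    intro o _
    rw [Finset.card_powersetCard]
  rw [← h1]
  have hA : ∀ x ∈ ((Finset.powersetCard a C.A) ×ˢ
      (Fintype.piFinset (fun o : ZMod 7 => Finset.powersetCard h (C.B o)))),
      (x.1 ∪ Finset.univ.biUnion x.2) ∩ C.A = x.1 := by
    intro x hx
    rw [Finset.mem_product, Finset.mem_powersetCard, Fintype.mem_piFinset] at hx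
    ext y
    rw [Finset.mem_inter, Finset.mem_union, Finset.mem_biUnion]
    constructor
    · rintro ⟨hy | ⟨o, -, hy⟩, hyA⟩
      · exact hy
      · exact absurd ((Finset.mem_powersetCard.1 (hx.2 o)).1 hy)
          (Finset.disjoint_left.1 (C.AB o) hyA)
    · intro hy
      exact ⟨Or.inl hy, hx.1.1 hy⟩
  have hB : ∀ x ∈ ((Finset.powersetCard a C.A) ×ˢ
      (Fintype.piFinset (fun o : ZMod 7 => Finset.powersetCard h (C.B o)))), ∀ o,
      (x.1 ∪ Finset.univ.biUnion x.2) ∩ C.B o = x.2 o := by
    intro x hx o
    rw [Finset.mem_product, Finset.mem_powersetCard, Fintype.mem_piFinset] at hx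
    ext y
    rw [Finset.mem_inter, Finset.mem_union, Finset.mem_biUnion]
    constructor
    · rintro ⟨hy | ⟨o', -, hy⟩, hyB⟩
      · exact absurd hyB (Finset.disjoint_left.1 (C.AB o) (hx.1.1 hy))
      · by_cases hoo : o' = o
        · rw [← hoo]
          exact hy
        · exact absurd hyB (Finset.disjoint_left.1 (C.BB o' o hoo)
            ((Finset.mem_powersetCard.1 (hx.2 o')).1 hy))
    · intro hy
      exact ⟨Or.inr ⟨o, Finset.mem_univ _, hy⟩, (Finset.mem_powersetCard.1 (hx.2 o)).1 hy⟩
  apply Finset.card_le_card_of_injOn (fun x => x.1 ∪ Finset.univ.biUnion x.2)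
  · intro x hx
    rw [Finset.mem_coe] at hx
    have hA' := hA x hx
    have hB' := hB x hx
    rw [Finset.mem_coe, Config.mem_fam]
    rw [Finset.mem_product, Finset.mem_powersetCard, Fintype.mem_piFinset] at hx
    refine ⟨?_, Or.inl ⟨?_, fun o => ?_⟩⟩
    · simp only
      rw [Finset.card_union_of_disjoint, Finset.card_biUnion, hx.1.2,
        Finset.sum_congr rfl (fun o _ => (Finset.mem_powersetCard.1 (hx.2 o)).2),
        Finset.sum_const, smul_eq_mul, Finset.card_univ, ZMod.card, hk]
      · intro o _ o' _ hne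
        exact (C.BB o o' hne).mono (Finset.mem_powersetCard.1 (hx.2 o)).1
          (Finset.mem_powersetCard.1 (hx.2 o')).1
      · rw [Finset.disjoint_biUnion_right]
        intro o _
        exact (C.AB o).mono hx.1.1 (Finset.mem_powersetCard.1 (hx.2 o)).1
    · exact le_of_eq (hx.1.2.symm.trans (congrArg Finset.card hA'.symm))
    · exact le_of_eq ((Finset.mem_powersetCard.1 (hx.2 o)).2.symm.trans
        (congrArg Finset.card (hB' o).symm))
  · intro x hx y hy hxy
    rw [Finset.mem_coe] at hx hy
    simp only at hxy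
    refine Prod.ext ?_ (funext fun o => ?_)
    · rw [← hA x hx, ← hA y hy, hxy]
    · rw [← hB x hx o, ← hB y hy o, hxy]

end Pool.Agent.H96.RK
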