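import Pool.Agent.H96.RK.Count

set_option autoImplicit false

/-!
A concrete configuration.
-/

namespace Pool.Agent.H96.RK

open Pool.Agent.H49.Res Finset

variable {m f a b h τ : ℕ}

/-- Transport of a configuration. -/
def Config.map {V V' : Type*} (C : Config V m f a b h τ) (e : V ↪ V') :
    Config V' m f a b h τ where
  A := C.A.map e
  B o := (C.B o).map e
  W p := (C.W p).map e
  G c z := (C.G c z).map e
  cardA := by rw [Finset.card_map]; exact C.cardA
  cardB o := by rw [Finset.card_map]; exact C.cardB o
  cardW p := by rw [Finset.card_map]; exact C.cardW p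
  cardG c z := by rw [Finset.card_map]; exact C.cardG c z
  W_sub p := Finset.map_subset_map.2 (C.W_sub p)
  W_disj p q hpq := (Finset.disjoint_map e).2 (C.W_disj p q hpq)
  G_disj c z c' z' hne := (Finset.disjoint_map e).2 (C.G_disj c z c' z' hne)
  AB o := (Finset.disjoint_map e).2 (C.AB o)
  AG c z := (Finset.disjoint_map e).2 (C.AG c z)
  BB o o' hne := (Finset.disjoint_map e).2 (C.BB o o' hne)
  BG o c z := (Finset.disjoint_map e).2 (C.BG o c z)

/-- The vertices. -/
abbrev Vt (m n w r t : ℕ) :=
  Fin n ⊕ ((ZMod (7 * m) × Fin w) ⊕ ((ZMod 7 × Fin r) ⊕ ((ZMod (7 * m) × Pt) × Fin t)))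

section model

variable {n w r t : ℕ}

/-- Extra vertices. -/
def vA (i : Fin n) : Vt m n w r t := Sum.inl i
/-- Window vertices. -/
def vW (x : ZMod (7 * m) × Fin w) : Vt m n w r t := Sum.inr (Sum.inl x)
/-- Rest of the sets `B o`. -/
def vR (x : ZMod 7 × Fin r) : Vt m n w r t := Sum.inr (Sum.inr (Sum.inl x))
/-- Vertices of the cells. -/
def vG (x : (ZMod (7 * m) × Pt) × Fin t) : Vt m n w r t := Sum.inr (Sum.inr (Sum.inr x))

lemma fiber_eq [NeZero (7 * m)] (o : ZMod 7) :
    ((Finset.univ : Finset (ZMod (7 * m))).filter (fun p => cls p = o)).card = m := by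
  have h1 : ∑ o : ZMod 7,
      ((Finset.univ : Finset (ZMod (7 * m))).filter (fun p => cls p = o)).card = 7 * m := by
    rw [← Finset.card_eq_sum_card_fiberwise (f := cls) (t := (Finset.univ : Finset (ZMod 7)))
      (fun _ _ => Finset.mem_coe.2 (Finset.mem_univ _)), Finset.card_univ, ZMod.card]
  have h2 : ∑ _o : ZMod 7, m = 7 * m := by
    rw [Finset.sum_const, smul_eq_mul, Finset.card_univ, ZMod.card]
  have h3 := (Finset.sum_eq_sum_iff_of_le (s := (Finset.univ : Finset (ZMod 7)))
    (f := fun _ => m)
    (g := fun o => ((Finset.univ : Finset (ZMod (7 * m))).filter (fun p => cls p = o)).card)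
    (fun o _ => fiber_card o)).1 (h2.trans h1.symm)
  exact (h3 o (Finset.mem_univ _)).symm

end model

theorem exists_config (hm : 1 ≤ m) (ha : 1 ≤ a) (hb : 1 ≤ b) (hτ : 1 ≤ τ)
    (hr : b * m + 1 ≤ h * f + m) :
    ∃ N : ℕ, Nonempty (Config (Fin N) m f a b h τ) := by
  classical
  have : NeZero (7 * m) := ⟨by omega⟩
  let n := a * f + a - 1
  let w := 2 * b - 1
  let r := h * f + m - b * m - 1
  let t := 2 * τ - 1
  let C : Config (Vt m n w r t) m f a b h τ :=
    { A := Finset.univ.image vA
      B := fun o => ((Finset.univ.filter (fun p => cls p = o)) ×ˢ Finset.univ).image vW ∪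
        Finset.univ.image (fun i => vR (o, i))
      W := fun p => Finset.univ.image (fun i => vW (p, i))
      G := fun c z => Finset.univ.image (fun i => vG ((c, z), i))
      cardA := by
        rw [Finset.card_image_of_injective, Finset.card_univ, Fintype.card_fin]
        · show a * f + a - 1 + 1 = a * f + a
          omega
        · intro i j hij
          simpa [vA] using hij
      cardB := by
        intro o
        rw [Finset.card_union_of_disjoint, Finset.card_image_of_injective,
          Finset.card_image_of_injective, Finset.card_product, fiber_eq, Finset.card_univ,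
          Finset.card_univ, Fintype.card_fin, Fintype.card_fin]
        · have h1 : m * (2 * b - 1) + m = 2 * (b * m) := by
            obtain ⟨b', rfl⟩ : ∃ b', b = b' + 1 := ⟨b - 1, by omega⟩
            have : 2 * (b' + 1) - 1 = 2 * b' + 1 := by omega
            rw [this]
            ring
          have h2 : m ≤ b * m := Nat.le_mul_of_pos_left m hb
          show m * (2 * b - 1) + (h * f + m - b * m - 1) + 1 = b * m + h * f
          omega
        · intro i j hij
          simpa [vR] using hij
        · intro i j hij
          simpa [vW] using hij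
        · simp [Finset.disjoint_left, vW, vR]
      cardW := by
        intro p
        rw [Finset.card_image_of_injective, Finset.card_univ, Fintype.card_fin]
        · show 2 * b - 1 + 1 = 2 * b
          omega
        · intro i j hij
          simpa [vW] using hij
      cardG := by
        intro c z
        rw [Finset.card_image_of_injective, Finset.card_univ, Fintype.card_fin]
        · show 2 * τ - 1 + 1 = 2 * τ
          omega
        · intro i j hij
          simpa [vG] using hij
      W_sub := by
        intro p x hx
        rw [Finset.mem_image] at hx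
        obtain ⟨i, -, rfl⟩ := hx
        rw [Finset.mem_union]
        left
        rw [Finset.mem_image]
        exact ⟨(p, i), Finset.mem_product.2
          ⟨Finset.mem_filter.2 ⟨Finset.mem_univ _, rfl⟩, Finset.mem_univ _⟩, rfl⟩
      W_disj := by
        intro p q hpq
        rw [Finset.disjoint_left]
        intro x hx hx'
        rw [Finset.mem_image] at hx hx'
        obtain ⟨i, -, rfl⟩ := hx
        obtain ⟨j, -, hj⟩ := hx'
        simp only [vW, Sum.inr.injEq, Sum.inl.injEq, Prod.mk.injEq] at hj
        exact hpq hj.1.symm
      G_disj := by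
        intro c z c' z' hne
        rw [Finset.disjoint_left]
        intro x hx hx'
        rw [Finset.mem_image] at hx hx'
        obtain ⟨i, -, rfl⟩ := hx
        obtain ⟨j, -, hj⟩ := hx'
        simp only [vG, Sum.inr.injEq, Prod.mk.injEq] at hj
        apply hne
        rw [hj.1.1, hj.1.2]
      AB := by
        intro o
        rw [Finset.disjoint_left]
        intro x hx hx'
        rw [Finset.mem_image] at hx
        rw [Finset.mem_union, Finset.mem_image, Finset.mem_image] at hx'
        obtain ⟨i, -, rfl⟩ := hx
        rcases hx' with ⟨j, -, hj⟩ | ⟨j, -, hj⟩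
        · simp [vA, vW] at hj
        · simp [vA, vR] at hj
      AG := by
        intro c z
        rw [Finset.disjoint_left]
        intro x hx hx'
        rw [Finset.mem_image] at hx hx'
        obtain ⟨i, -, rfl⟩ := hx
        obtain ⟨j, -, hj⟩ := hx'
        simp [vA, vG] at hj
      BB := by
        intro o o' hne
        rw [Finset.disjoint_left]
        intro x hx hx'
        rw [Finset.mem_union, Finset.mem_image, Finset.mem_image] at hx hx'
        rcases hx with ⟨i, hi, rfl⟩ | ⟨i, hi, rfl⟩ <;> rcases hx' with ⟨j, hj', hj⟩ | ⟨j, hj', hj⟩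
        · simp only [vW, Sum.inr.injEq, Sum.inl.injEq] at hj
          subst hj
          rw [Finset.mem_product, Finset.mem_filter] at hi hj'
          exact hne (hi.1.2.symm.trans hj'.1.2)
        · simp [vW, vR] at hj
        · simp [vW, vR] at hj
        · simp only [vR, Sum.inr.injEq, Sum.inl.injEq, Prod.mk.injEq] at hj
          exact hne hj.1.symm
      BG := by
        intro o c z
        rw [Finset.disjoint_left]
        intro x hx hx'
        rw [Finset.mem_union, Finset.mem_image, Finset.mem_image] at hx
        rw [Finset.mem_image] at hx'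
        obtain ⟨j, -, rfl⟩ := hx'
        rcases hx with ⟨i, -, hi⟩ | ⟨i, -, hi⟩
        · simp [vG, vW] at hi
        · simp [vG, vR] at hi }
  exact ⟨Fintype.card (Vt m n w r t), ⟨C.map (Fintype.equivFin (Vt m n w r t)).toEmbedding⟩⟩

end Pool.Agent.H96.RK
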