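import Mathlib

set_option autoImplicit false

/-!
The affine plane of order three, its four parallel classes and the ruler 0, 1, 4, 6.
-/

namespace Pool.Agent.H96.RK

/-- Points of the affine plane of order three. -/
abbrev Pt := Fin 3 × Fin 3

/-- The four linear functionals; their level sets are the lines. -/
def phi (j : Fin 4) (z : Pt) : Fin 3 :=
  match j with
  | 0 => z.1
  | 1 => z.2
  | 2 => z.1 + z.2
  | 3 => z.1 + 2 * z.2

/-- The ruler. -/
def off (j : Fin 4) : ℕ :=
  match j with
  | 0 => 0
  | 1 => 1
  | 2 => 4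
  | 3 => 6

lemma meet : ∀ i j : Fin 4, i ≠ j → ∀ v w : Fin 3, ∃ z : Pt, phi i z = v ∧ phi j z = w := by
  decide

lemma ruler : ∀ d : Fin 6, ∃ i j : Fin 4, i ≠ j ∧ off j = off i + (d.val + 1) := by
  decide

lemma off_le (j : Fin 4) : off j ≤ 6 := by
  revert j
  decide

lemma line_card : ∀ (j : Fin 4) (v : Fin 3),
    (Finset.univ.filter (fun z : Pt => phi j z = v)).card = 3 := by
  decide

lemma three_points : ∀ z2 z3 z4 : Pt, ∃ j : Fin 4, ∃ v : Fin 3,
    phi j 0 ≠ v ∧ phi j z2 ≠ v ∧ phi j z3 ≠ v ∧ phi j z4 ≠ v := by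
  decide

lemma phi_sub : ∀ (j : Fin 4) (z w : Pt), phi j (z - w) = phi j z - phi j w := by
  decide

lemma four_points (z1 z2 z3 z4 : Pt) : ∃ j : Fin 4, ∃ v : Fin 3,
    phi j z1 ≠ v ∧ phi j z2 ≠ v ∧ phi j z3 ≠ v ∧ phi j z4 ≠ v := by
  obtain ⟨j, v, h1, h2, h3, h4⟩ := three_points (z2 - z1) (z3 - z1) (z4 - z1)
  refine ⟨j, v + phi j z1, ?_, ?_, ?_, ?_⟩
  · intro h
    apply h1
    have : phi j (0 : Pt) = 0 := by
      have := phi_sub j 0 0
      rw [sub_zero] at this
      rw [this, sub_self]
    rw [this]
    have h' : (0 : Fin 3) + phi j z1 = v + phi j z1 := by rw [zero_add]; exact h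
    exact add_right_cancel h'
  · intro h
    apply h2
    rw [phi_sub, h, add_sub_cancel_right]
  · intro h
    apply h3
    rw [phi_sub, h, add_sub_cancel_right]
  · intro h
    apply h4
    rw [phi_sub, h, add_sub_cancel_right]

/-- The points of `O` meet every line of the parallel class `j`. -/
def Blocks (O : Finset Pt) (j : Fin 4) : Prop := ∀ v : Fin 3, ∃ z ∈ O, phi j z = v

instance (O : Finset Pt) (j : Fin 4) : Decidable (Blocks O j) := by
  unfold Blocks
  infer_instance

/-- The number of parallel classes met completely by `O`. -/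
def beta (O : Finset Pt) : ℕ := (Finset.univ.filter (Blocks O)).card

lemma beta_le_four (O : Finset Pt) : beta O ≤ 4 := by
  have := Finset.card_le_univ (Finset.univ.filter (Blocks O))
  simpa [beta] using this

lemma three_le_card {O : Finset Pt} {j : Fin 4} (h : Blocks O j) : 3 ≤ O.card := by
  have h1 : (Finset.univ : Finset (Fin 3)) ⊆ O.image (phi j) := by
    intro v _
    obtain ⟨z, hz, hv⟩ := h v
    exact Finset.mem_image.2 ⟨z, hz, hv⟩
  have h2 := (Finset.card_le_card h1).trans Finset.card_image_le
  simpa using h2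

lemma five_le_card {O : Finset Pt} (h : ∀ j, Blocks O j) : 5 ≤ O.card := by
  by_contra hcon
  have h3 := three_le_card (h 0)
  have h4 : O.card = 3 ∨ O.card = 4 := by omega
  rcases h4 with h4 | h4
  · obtain ⟨x, y, z, -, -, -, rfl⟩ := Finset.card_eq_three.1 h4
    obtain ⟨j, v, h1, h2, h3, -⟩ := four_points x y z z
    obtain ⟨w, hw, hwv⟩ := h j v
    simp only [Finset.mem_insert, Finset.mem_singleton] at hw
    rcases hw with rfl | rfl | rfl
    · exact h1 hwv
    · exact h2 hwv
    · exact h3 hwv
  · obtain ⟨x, y, z, t, -, -, -, -, -, -, rfl⟩ := Finset.card_eq_four.1 h4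
    obtain ⟨j, v, h1, h2, h3, h5⟩ := four_points x y z t
    obtain ⟨w, hw, hwv⟩ := h j v
    simp only [Finset.mem_insert, Finset.mem_singleton] at hw
    rcases hw with rfl | rfl | rfl | rfl
    · exact h1 hwv
    · exact h2 hwv
    · exact h3 hwv
    · exact h5 hwv

/-- A set of `r` points blocks at most `r` classes, with equality only for `r = 0, 3`. -/
lemma beta_le (O : Finset Pt) :
    beta O ≤ O.card ∧ (beta O = O.card → O.card = 0 ∨ O.card = 3) := by
  rcases Nat.eq_zero_or_pos (beta O) with h0 | hpos
  · rw [h0]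
    exact ⟨Nat.zero_le _, fun h => Or.inl h.symm⟩
  · have h3 : 3 ≤ O.card := by
      obtain ⟨j, hj⟩ := Finset.card_pos.1 hpos
      exact three_le_card (Finset.mem_filter.1 hj).2
    have h4 := beta_le_four O
    rcases Nat.lt_or_ge (beta O) 4 with h | h
    · constructor
      · omega
      · intro h'
        right
        omega
    · have h5 : 5 ≤ O.card := by
        apply five_le_card
        intro j
        have hu : Finset.univ.filter (Blocks O) = Finset.univ := by
          apply Finset.eq_univ_of_card
          rw [Fintype.card_fin]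
          have : beta O = 4 := by omega
          exact this
        have : j ∈ Finset.univ.filter (Blocks O) := by
          rw [hu]
          exact Finset.mem_univ j
        exact (Finset.mem_filter.1 this).2
      constructor
      · omega
      · intro h'
        omega

end Pool.Agent.H96.RK
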