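import Pool.Agent.H96.RK.Build

set_option autoImplicit false

/-!
The family of the dense and sparse edges is resilient.
-/

namespace Pool.Agent.H96.RK

open Pool.Agent.H49.Res Finset

variable {V : Type*} [DecidableEq V] {m f a b h τ : ℕ}

/-- Every class has many positions. -/
lemma fiber_card [NeZero (7 * m)] (o : ZMod 7) :
    m ≤ ((Finset.univ : Finset (ZMod (7 * m))).filter (fun p => cls p = o)).card := by
  have h7 : (7 : ZMod 7) = 0 := by decide
  have ho : o.val < 7 := ZMod.val_lt o
  have hinj : ∀ i ∈ Finset.range m, ∀ j ∈ Finset.range m,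
      ((o.val + 7 * i : ℕ) : ZMod (7 * m)) = ((o.val + 7 * j : ℕ) : ZMod (7 * m)) → i = j := by
    intro i hi j hj hij
    rw [Finset.mem_range] at hi hj
    rw [ZMod.natCast_eq_natCast_iff', Nat.mod_eq_of_lt (by omega), Nat.mod_eq_of_lt (by omega)]
      at hij
    omega
  have h1 : ((Finset.range m).image (fun i => ((o.val + 7 * i : ℕ) : ZMod (7 * m)))).card = m := by
    rw [Finset.card_image_of_injOn, Finset.card_range]
    intro i hi j hj hij
    exact hinj i hi j hj hij
  refine le_trans (le_of_eq h1.symm) (Finset.card_le_card ?_)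
  intro p hp
  rw [Finset.mem_image] at hp
  obtain ⟨i, -, rfl⟩ := hp
  rw [Finset.mem_filter]
  refine ⟨Finset.mem_univ _, ?_⟩
  rw [map_natCast]
  push_cast
  rw [h7, zero_mul, add_zero, ZMod.natCast_zmod_val]

/-- Unblocked positions of a class. -/
lemma Config.exists_free [NeZero (7 * m)] (C : Config V m f a b h τ) (T : Finset V) (o : ZMod 7)
    (y : ℕ) (hy : y + C.nblk T o ≤ m) :
    ∃ Q : Finset (ZMod (7 * m)), Q.card = y ∧ ∀ p ∈ Q, cls p = o ∧ ¬ C.Blocked T p := by
  classical
  have h1 := fiber_card (m := m) o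
  have h2 : ((Finset.univ : Finset (ZMod (7 * m))).filter (fun p => cls p = o)).card ≤
      (((Finset.univ : Finset (ZMod (7 * m))).filter (fun p => cls p = o)) \
        ((C.blk T).filter (fun p => cls p = o))).card + C.nblk T o := by
    have := Finset.le_card_sdiff ((C.blk T).filter (fun p => cls p = o))
      ((Finset.univ : Finset (ZMod (7 * m))).filter (fun p => cls p = o))
    have h3 : ((C.blk T).filter (fun p => cls p = o)).card = C.nblk T o := by
      rw [Config.nblk]
    omega
  obtain ⟨Q, hQ, hQc⟩ := Finset.exists_subset_card_eq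
    (s := ((Finset.univ : Finset (ZMod (7 * m))).filter (fun p => cls p = o)) \
        ((C.blk T).filter (fun p => cls p = o))) (n := y) (by omega)
  refine ⟨Q, hQc, fun p hp => ?_⟩
  have h3 := Finset.mem_sdiff.1 (hQ hp)
  have h4 := (Finset.mem_filter.1 h3.1).2
  refine ⟨h4, fun hbl => h3.2 ?_⟩
  rw [Finset.mem_filter, Config.mem_blk]
  exact ⟨hbl, h4⟩

/-- Deleting a set of fewer than `k` vertices leaves a large matching. -/
lemma Config.large_matching [NeZero (7 * m)] (C : Config V m f a b h τ)
    (hk : 12 * τ + b = a + 7 * h)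
    (hb2 : 2 * τ ≤ b) (hb3 : b ≤ 3 * τ) (hh : h ≤ τ) (ha : 12 * τ + b ≤ 2 * a)
    (hbm : 12 * τ + b ≤ b * m) (hτ : 1 ≤ τ) (hf : 1 ≤ f)
    (T : Finset V) (hT : T.card + 1 ≤ 12 * τ + b) :
    ∃ M : Finset (Finset V), IsMatching M ∧ M.card + 1 = f + m ∧
      ∀ E ∈ M, E.card = 12 * τ + b ∧ Disjoint E T ∧ (C.Dense E ∨ ∃ p, C.Sparse p E) := by
  classical
  have hm1 : 1 ≤ m := by
    rcases Nat.eq_zero_or_pos m with h0 | h0
    · rw [h0, mul_zero] at hbm
      omega
    · exact h0
  have hsub : ∀ U : Finset V, (U \ T).card + (T ∩ U).card = U.card := by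
    intro U
    rw [Finset.inter_comm]
    exact Finset.card_sdiff_add_card_inter U T
  have hle : ∀ U : Finset V, (T ∩ U).card ≤ T.card :=
    fun U => Finset.card_le_card Finset.inter_subset_left
  have hWle : ∀ (o : ZMod 7) (p : ZMod (7 * m)), cls p = o →
      (T ∩ C.W p).card ≤ (T ∩ C.B o).card := by
    intro o p hp
    apply Finset.card_le_card
    apply Finset.inter_subset_inter_left
    rw [← hp]
    exact C.W_sub p
  rcases Nat.lt_or_ge (T ∩ C.A).card a with hA | hA
  · obtain ⟨o, ho, hno⟩ := C.good_two hb2 hb3 T hT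
    obtain ⟨Q, hQc, hQ⟩ := C.exists_free T o (m - 1) (by omega)
    obtain ⟨M, hM, hMc, hME⟩ := C.exists_matching hk (by omega) T o Q f
      (fun p hp => ⟨(hQ p hp).1, (hQ p hp).2, by
        have h1 := hWle o p (hQ p hp).1
        have h2 := hsub (C.W p)
        have h3 := C.cardW p
        omega⟩)
      (by
        have h2 := hsub C.A
        have h3 := C.cardA
        omega)
      (fun o' _ => by
        have h2 := hsub (C.B o')
        have h3 := C.cardB o'
        have h4 := hle (C.B o')
        omega)
      (by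
        have h2 := hsub (C.B o)
        have h3 := C.cardB o
        rw [hQc]
        have h5 : b * (m - 1) + b = b * m := by
          obtain ⟨m', rfl⟩ : ∃ m', m = m' + 1 := ⟨m - 1, by omega⟩
          rw [Nat.add_sub_cancel]
          ring
        omega)
    refine ⟨M, hM, ?_, hME⟩
    rw [hMc, hQc]
    omega
  · obtain ⟨o, ho, hno⟩ := C.good_one hh T (by omega) hA
    obtain ⟨Q, hQc, hQ⟩ := C.exists_free T o m (by omega)
    obtain ⟨f', rfl⟩ : ∃ f', f = f' + 1 := ⟨f - 1, by omega⟩
    have hfa : a * (f' + 1) = a * f' + a := by ring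
    have hfh : h * (f' + 1) = h * f' + h := by ring
    obtain ⟨M, hM, hMc, hME⟩ := C.exists_matching hk (by omega) T o Q f'
      (fun p hp => ⟨(hQ p hp).1, (hQ p hp).2, by
        have h1 := hWle o p (hQ p hp).1
        have h2 := hsub (C.W p)
        have h3 := C.cardW p
        omega⟩)
      (by
        have h2 := hsub C.A
        have h3 := C.cardA
        have h4 := hle C.A
        omega)
      (fun o' _ => by
        have h2 := hsub (C.B o')
        have h3 := C.cardB o'
        have h4 := hle (C.B o')
        omega)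
      (by
        have h2 := hsub (C.B o)
        have h3 := C.cardB o
        rw [hQc]
        omega)
    refine ⟨M, hM, ?_, hME⟩
    rw [hMc, hQc]
    omega

open Classical in
/-- The family of all dense and all sparse edges. -/
noncomputable def Config.fam [Fintype V] (C : Config V m f a b h τ) : Finset (Finset V) :=
  (Finset.univ.powersetCard (12 * τ + b)).filter (fun E => C.Dense E ∨ ∃ p, C.Sparse p E)

lemma Config.mem_fam [Fintype V] (C : Config V m f a b h τ) (E : Finset V) :
    E ∈ C.fam ↔ E.card = 12 * τ + b ∧ (C.Dense E ∨ ∃ p, C.Sparse p E) := by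
  classical
  rw [Config.fam, Finset.mem_filter, Finset.mem_powersetCard]
  exact and_congr_left (fun _ => and_iff_right (Finset.subset_univ E))

/-- The matching number and the resilience of the family. -/
lemma Config.fam_resilient [Fintype V] (C : Config V m f a b h τ)
    (hk : 12 * τ + b = a + 7 * h)
    (hb2 : 2 * τ ≤ b) (hb3 : b ≤ 3 * τ) (hh : h ≤ τ) (ha : 12 * τ + b ≤ 2 * a)
    (hbm : 12 * τ + b ≤ b * m) (hτ : 1 ≤ τ) (hf : 1 ≤ f) :
    nu C.fam + 1 = f + m ∧ Resilient (12 * τ + b - 1) C.fam := by
  classical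
  have hm1 : 1 ≤ m := by
    rcases Nat.eq_zero_or_pos m with h0 | h0
    · rw [h0, mul_zero] at hbm
      omega
    · exact h0
  have : NeZero (7 * m) := ⟨by omega⟩
  have key : ∀ T : Finset V, T.card ≤ 12 * τ + b - 1 →
      nu (C.fam.filter (fun E => Disjoint E T)) + 1 = f + m := by
    intro T hT
    obtain ⟨M, hM, hMc, hME⟩ := C.large_matching hk hb2 hb3 hh ha hbm hτ hf T (by omega)
    have hsub : M ⊆ C.fam.filter (fun E => Disjoint E T) := by
      intro E hE
      rw [Finset.mem_filter, Config.mem_fam]
      exact ⟨⟨(hME E hE).1, (hME E hE).2.2⟩, (hME E hE).2.1⟩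
    have h1 := card_le_nu hsub hM
    obtain ⟨M', hM', hMM', hMc'⟩ := Pool.Agent.H49.Res.exists_matching
      (C.fam.filter (fun E => Disjoint E T))
    have h2 := C.matching_le hm1 hMM' (fun E hE => by
      have := hM' hE
      rw [Finset.mem_filter, Config.mem_fam] at this
      exact this.1.2)
    omega
  have h0 : nu C.fam + 1 = f + m := by
    have := key ∅ (by simp)
    rw [Finset.filter_true_of_mem (fun E _ => Finset.disjoint_empty_right E)] at this
    exact this
  refine ⟨h0, fun T hT => ?_⟩
  have h1 := key T hT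
  have h2 : nu (C.fam.filter (fun E => Disjoint E T)) = nu C.fam := by omega
  convert h2

end Pool.Agent.H96.RK
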