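import Pool.Agent.H96.RK.Plane
import Pool.Agent.H49.Res.Defs

set_option autoImplicit false

/-!
The configuration, the dense and the sparse edges, and the bound on the matching number.
-/

namespace Pool.Agent.H96.RK

open Pool.Agent.H49.Res Finset

/-- The class of a position. -/
def cls {m : ℕ} : ZMod (7 * m) →+* ZMod 7 := ZMod.castHom (Dvd.intro m rfl) (ZMod 7)

/-- The vertex sets of the construction. -/
structure Config (V : Type*) (m f a b h τ : ℕ) where
  A : Finset V
  B : ZMod 7 → Finset V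
  W : ZMod (7 * m) → Finset V
  G : ZMod (7 * m) → Pt → Finset V
  cardA : A.card + 1 = a * f + a
  cardB : ∀ o, (B o).card + 1 = b * m + h * f
  cardW : ∀ p, (W p).card + 1 = 2 * b
  cardG : ∀ c z, (G c z).card + 1 = 2 * τ
  W_sub : ∀ p, W p ⊆ B (cls p)
  W_disj : ∀ p q, p ≠ q → Disjoint (W p) (W q)
  G_disj : ∀ c z c' z', (c, z) ≠ (c', z') → Disjoint (G c z) (G c' z')
  AB : ∀ o, Disjoint A (B o)
  AG : ∀ c z, Disjoint A (G c z)
  BB : ∀ o o', o ≠ o' → Disjoint (B o) (B o')
  BG : ∀ o c z, Disjoint (B o) (G c z)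

variable {V : Type*} [DecidableEq V] {m f a b h τ : ℕ}

/-- Dense edges. -/
def Config.Dense (C : Config V m f a b h τ) (E : Finset V) : Prop :=
  a ≤ (E ∩ C.A).card ∧ ∀ o, h ≤ (E ∩ C.B o).card

/-- Sparse edges at the position `p`. -/
def Config.Sparse (C : Config V m f a b h τ) (p : ZMod (7 * m)) (E : Finset V) : Prop :=
  b ≤ (E ∩ C.W p).card ∧
    ∀ j : Fin 4, ∃ v : Fin 3, ∀ z, phi j z = v → τ ≤ (E ∩ C.G (p - (off j : ℕ)) z).card

lemma sum_inter_le {M : Finset (Finset V)} (hM : IsMatching M) (U : Finset V) :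
    ∑ E ∈ M, (E ∩ U).card ≤ U.card := by
  rw [← Finset.card_biUnion]
  · apply Finset.card_le_card
    intro x hx
    rw [Finset.mem_biUnion] at hx
    obtain ⟨E, -, hE⟩ := hx
    exact (Finset.mem_inter.1 hE).2
  · intro E hE E' hE' hne
    exact (hM E hE E' hE' hne).mono Finset.inter_subset_left Finset.inter_subset_left

lemma inter_card_add {E E' U : Finset V} (hd : Disjoint E E') :
    (E ∩ U).card + (E' ∩ U).card ≤ U.card := by
  rw [← Finset.card_union_of_disjoint
    (hd.mono Finset.inter_subset_left Finset.inter_subset_left)]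
  apply Finset.card_le_card
  exact Finset.union_subset Finset.inter_subset_right Finset.inter_subset_right

lemma Config.sparse_apart (C : Config V m f a b h τ) {p q : ZMod (7 * m)} {E E' : Finset V}
    (hE : C.Sparse p E) (hE' : C.Sparse q E') (hd : Disjoint E E') (d : ℕ) (hd6 : d ≤ 6) :
    q ≠ p + d := by
  rintro rfl
  rcases Nat.eq_zero_or_pos d with rfl | hpos
  · have h1 := inter_card_add (U := C.W p) hd
    have h2 := C.cardW p
    have h3 := hE.1
    have h4 := hE'.1
    rw [Nat.cast_zero, add_zero] at h4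
    omega
  · obtain ⟨i, j, hij, hoff⟩ := ruler ⟨d - 1, by omega⟩
    have hoff' : off j = off i + d := by
      simp only at hoff
      omega
    have hc : p + (d : ZMod (7 * m)) - (off j : ℕ) = p - (off i : ℕ) := by
      rw [hoff']
      push_cast
      ring
    obtain ⟨v, hv⟩ := hE.2 i
    obtain ⟨w, hw⟩ := hE'.2 j
    obtain ⟨z, hz1, hz2⟩ := meet i j hij v w
    have h3 := hv z hz1
    have h4 := hw z hz2
    rw [hc] at h4
    have h1 := inter_card_add (U := C.G (p - (off i : ℕ)) z) hd
    have h2 := C.cardG (p - (off i : ℕ)) z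
    omega

/-- Separated positions. -/
lemma positions (hm : 1 ≤ m) (P : Finset (ZMod (7 * m)))
    (hP : ∀ p ∈ P, ∀ q ∈ P, ∀ d : ℕ, 1 ≤ d → d ≤ 6 → q ≠ p + d) :
    P.card ≤ m ∧ (P.card = m → ∀ p ∈ P, ∀ q ∈ P, cls p = cls q) := by
  have : NeZero (7 * m) := ⟨by omega⟩
  have hinj : Set.InjOn (fun x : ZMod (7 * m) × Fin 7 => x.1 + (x.2.val : ZMod (7 * m)))
      (P ×ˢ (Finset.univ : Finset (Fin 7)) : Finset _) := by
    rintro ⟨p, i⟩ hp ⟨q, j⟩ hq heq
    simp only [Finset.coe_product, Set.mem_prod, Finset.mem_coe] at hp hq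
    simp only at heq
    rcases lt_trichotomy i.val j.val with hlt | he | hlt
    · exfalso
      apply hP q hq.1 p hp.1 (j.val - i.val) (by omega) (by omega)
      rw [Nat.cast_sub hlt.le]
      linear_combination heq
    · have hij : i = j := Fin.ext he
      subst hij
      have : p = q := by linear_combination heq
      rw [this]
    · exfalso
      apply hP p hp.1 q hq.1 (i.val - j.val) (by omega) (by omega)
      rw [Nat.cast_sub hlt.le]
      linear_combination -heq
  have hcard : (P ×ˢ (Finset.univ : Finset (Fin 7))).card = P.card * 7 := by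
    rw [Finset.card_product, Finset.card_univ, Fintype.card_fin]
  have himg : ((P ×ˢ (Finset.univ : Finset (Fin 7))).image
      (fun x : ZMod (7 * m) × Fin 7 => x.1 + (x.2.val : ZMod (7 * m)))).card = P.card * 7 := by
    rw [Finset.card_image_of_injOn hinj, hcard]
  have hu : Fintype.card (ZMod (7 * m)) = 7 * m := ZMod.card _
  constructor
  · have h1 := Finset.card_le_univ ((P ×ˢ (Finset.univ : Finset (Fin 7))).image
      (fun x : ZMod (7 * m) × Fin 7 => x.1 + (x.2.val : ZMod (7 * m))))
    rw [himg, hu] at h1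
    omega
  · intro hPm
    have hsurj : (P ×ˢ (Finset.univ : Finset (Fin 7))).image
        (fun x : ZMod (7 * m) × Fin 7 => x.1 + (x.2.val : ZMod (7 * m))) = Finset.univ := by
      apply Finset.eq_univ_of_card
      rw [himg, hu, hPm]
      ring
    have hstep : ∀ p ∈ P, p + 7 ∈ P := by
      intro p hp
      have h1 : p + 7 ∈ (P ×ˢ (Finset.univ : Finset (Fin 7))).image
        (fun x : ZMod (7 * m) × Fin 7 => x.1 + (x.2.val : ZMod (7 * m))) := by
        rw [hsurj]
        exact Finset.mem_univ _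
      rw [Finset.mem_image] at h1
      obtain ⟨⟨q, i⟩, hq, heq⟩ := h1
      rw [Finset.mem_product] at hq
      simp only at hq heq
      rcases Nat.eq_zero_or_pos i.val with h0 | hpos
      · rw [h0, Nat.cast_zero, add_zero] at heq
        rw [← heq]
        exact hq.1
      · exfalso
        apply hP p hp q hq.1 (7 - i.val) (by omega) (by omega)
        rw [Nat.cast_sub (by omega)]
        push_cast
        linear_combination heq
    have hstep' : ∀ (n : ℕ), ∀ p ∈ P, p + ((7 * n : ℕ) : ZMod (7 * m)) ∈ P := by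
      intro n
      induction n with
      | zero =>
        intro p hp
        simpa using hp
      | succ n ih =>
        intro p hp
        have h1 := hstep _ (ih p hp)
        have h2 : p + ((7 * (n + 1) : ℕ) : ZMod (7 * m)) = p + ((7 * n : ℕ) : ZMod (7 * m)) + 7 := by
          push_cast
          ring
        rw [h2]
        exact h1
    intro p hp q hq
    obtain ⟨D, hD⟩ : ∃ D : ℕ, (D : ZMod (7 * m)) = q - p := ⟨(q - p).val, ZMod.natCast_zmod_val _⟩
    have hdm := Nat.div_add_mod D 7
    have hr : D % 7 < 7 := Nat.mod_lt _ (by norm_num)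
    have h1 := hstep' (D / 7) p hp
    have hq' : q = p + ((7 * (D / 7) : ℕ) : ZMod (7 * m)) + ((D % 7 : ℕ) : ZMod (7 * m)) := by
      have : ((7 * (D / 7) : ℕ) : ZMod (7 * m)) + ((D % 7 : ℕ) : ZMod (7 * m)) = (D : ZMod (7 * m)) := by
        rw [← Nat.cast_add, hdm]
      rw [add_assoc, this, hD]
      ring
    rcases Nat.eq_zero_or_pos (D % 7) with h0 | hpos
    · rw [h0, Nat.cast_zero, add_zero] at hq'
      rw [hq', map_add, map_natCast]
      push_cast
      have h7 : (7 : ZMod 7) = 0 := by decide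
      rw [h7]
      ring
    · exfalso
      exact hP _ h1 q hq (D % 7) hpos (by omega) hq'

/-- At most `f + m - 1` members of a family of dense and sparse edges are disjoint. -/
lemma Config.matching_le (C : Config V m f a b h τ) (hm : 1 ≤ m)
    {M : Finset (Finset V)} (hM : IsMatching M)
    (hF : ∀ E ∈ M, C.Dense E ∨ ∃ p, C.Sparse p E) : M.card + 1 ≤ f + m := by
  classical
  set Md := M.filter C.Dense with hMd
  set Ms := M.filter (fun E => ¬ C.Dense E) with hMs
  have hsplit : Md.card + Ms.card = M.card := Finset.card_filter_add_card_filter_not _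
  have hpos : ∀ E ∈ Ms, ∃ p, C.Sparse p E := by
    intro E hE
    rw [hMs, Finset.mem_filter] at hE
    exact (hF E hE.1).resolve_left hE.2
  choose! pos hposs using hpos
  have hMsM : ∀ E ∈ Ms, E ∈ M := fun E hE => (Finset.mem_filter.1 hE).1
  have hMdM : ∀ E ∈ Md, E ∈ M := fun E hE => (Finset.mem_filter.1 hE).1
  -- dense edges
  have hx : Md.card ≤ f := by
    have h1 : ∑ E ∈ Md, a ≤ ∑ E ∈ Md, (E ∩ C.A).card :=
      Finset.sum_le_sum (fun E hE => (Finset.mem_filter.1 hE).2.1)
    have h2 : ∑ E ∈ Md, (E ∩ C.A).card ≤ C.A.card :=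
      sum_inter_le (fun E hE E' hE' hne => hM E (hMdM E hE) E' (hMdM E' hE') hne) _
    rw [Finset.sum_const, smul_eq_mul] at h1
    have h3 := C.cardA
    by_contra hcon
    push Not at hcon
    have h4 : (f + 1) * a ≤ Md.card * a := Nat.mul_le_mul_right _ hcon
    have h5 : (f + 1) * a = a * f + a := by ring
    omega
  -- sparse edges
  have hinj : Set.InjOn pos (Ms : Set (Finset V)) := by
    intro E hE E' hE' heq
    by_contra hne
    have hd := hM E (hMsM E hE) E' (hMsM E' hE') hne
    have := C.sparse_apart (hposs E hE) (hposs E' hE') hd 0 (by norm_num)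
    apply this
    rw [heq, Nat.cast_zero, add_zero]
  have hsep : ∀ p ∈ Ms.image pos, ∀ q ∈ Ms.image pos, ∀ d : ℕ, 1 ≤ d → d ≤ 6 → q ≠ p + d := by
    intro p hp q hq d hd1 hd6 hqp
    rw [Finset.mem_image] at hp hq
    obtain ⟨E, hE, rfl⟩ := hp
    obtain ⟨E', hE', rfl⟩ := hq
    by_cases hne : E = E'
    · subst hne
      have h1 : ((d : ℕ) : ZMod (7 * m)) = 0 := by linear_combination -hqp
      rw [ZMod.natCast_eq_zero_iff] at h1
      have := Nat.le_of_dvd (by omega) h1
      omega
    · exact C.sparse_apart (hposs E hE) (hposs E' hE') (hM E (hMsM E hE) E' (hMsM E' hE') hne)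
        d hd6 hqp
  obtain ⟨hy, hyeq⟩ := positions hm _ hsep
  have himg : (Ms.image pos).card = Ms.card := Finset.card_image_of_injOn hinj
  rw [himg] at hy hyeq
  by_contra hcon
  have hxf : Md.card = f := by omega
  have hym : Ms.card = m := by omega
  have hcl := hyeq hym
  obtain ⟨E0, hE0⟩ : Ms.Nonempty := by
    rw [← Finset.card_pos]
    omega
  have h1 : ∑ E ∈ Md, h ≤ ∑ E ∈ Md, (E ∩ C.B (cls (pos E0))).card :=
    Finset.sum_le_sum (fun E hE => (Finset.mem_filter.1 hE).2.2 _)
  have h2 : ∑ E ∈ Ms, b ≤ ∑ E ∈ Ms, (E ∩ C.B (cls (pos E0))).card := by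
    apply Finset.sum_le_sum
    intro E hE
    refine (hposs E hE).1.trans (Finset.card_le_card ?_)
    apply Finset.inter_subset_inter_left
    rw [← hcl (pos E) (Finset.mem_image_of_mem _ hE) (pos E0) (Finset.mem_image_of_mem _ hE0)]
    exact C.W_sub _
  have h3 : ∑ E ∈ Md, (E ∩ C.B (cls (pos E0))).card + ∑ E ∈ Ms, (E ∩ C.B (cls (pos E0))).card =
      ∑ E ∈ M, (E ∩ C.B (cls (pos E0))).card := Finset.sum_filter_add_sum_filter_not _ _ _
  have h4 := sum_inter_le hM (C.B (cls (pos E0)))
  have h5 := C.cardB (cls (pos E0))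
  rw [Finset.sum_const, smul_eq_mul, hxf] at h1
  rw [Finset.sum_const, smul_eq_mul, hym] at h2
  have h6 : f * h = h * f := by ring
  have h7 : m * b = b * m := by ring
  omega

end Pool.Agent.H96.RK
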