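import Mathlib

set_option autoImplicit false

/-!
Comparison of the number of dense edges with the complete family.
-/

namespace Pool.Agent.H96.RK

open Nat

lemma numeric : 43 * (320 ! * 40 ! ^ 7 * 3000 ^ 600) < 600 ! * (1280 ^ 320 * 280 ^ 280) := by
  decide +kernel

/-- Bernoulli's inequality for a quotient of consecutive powers. -/
lemma pow_ratio (k m c : ℕ) (hm : k * (c + 1) ≤ m + 1) :
    c * (m + 1) ^ k ≤ (c + 1) * m ^ k := by
  have hm' : (k : ℝ) * ((c : ℝ) + 1) ≤ (m : ℝ) + 1 := by exact_mod_cast hm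
  have hpos : (0 : ℝ) < (m : ℝ) + 1 := by positivity
  have hc : (0 : ℝ) < (c : ℝ) + 1 := by positivity
  have h1 : (1 : ℝ) + k * (-1 / ((m : ℝ) + 1)) ≤ (1 + (-1 / ((m : ℝ) + 1))) ^ k := by
    apply one_add_mul_le_pow
    rw [neg_div, neg_le_neg_iff, div_le_iff₀ hpos]
    have : (0 : ℝ) ≤ m := Nat.cast_nonneg m
    linarith
  have h2 : (1 : ℝ) + (-1 / ((m : ℝ) + 1)) = m / ((m : ℝ) + 1) := by
    field_simp
    ring
  have h3 : (c : ℝ) / ((c : ℝ) + 1) ≤ 1 + k * (-1 / ((m : ℝ) + 1)) := by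
    have h5 : (k : ℝ) / ((m : ℝ) + 1) ≤ 1 / ((c : ℝ) + 1) := by
      rw [div_le_div_iff₀ hpos hc]
      linarith
    have h4 : (k : ℝ) * (-1 / ((m : ℝ) + 1)) = -(k / ((m : ℝ) + 1)) := by ring
    have h6 : (c : ℝ) / ((c : ℝ) + 1) = 1 - 1 / ((c : ℝ) + 1) := by
      field_simp
      ring
    rw [h4, h6]
    linarith
  rw [h2, div_pow] at h1
  have h5 := h3.trans h1
  rw [div_le_div_iff₀ hc (pow_pos hpos k)] at h5
  have h6 : (c : ℝ) * ((m : ℝ) + 1) ^ k ≤ ((c : ℝ) + 1) * (m : ℝ) ^ k := by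
    rw [mul_comm ((c : ℝ) + 1)]
    exact h5
  exact_mod_cast h6

lemma choose_lower (N c y : ℕ) (h : y + c ≤ N + 1) : y ^ c ≤ c ! * N.choose c := by
  rw [← Nat.descFactorial_eq_factorial_mul_choose]
  refine le_trans (Nat.pow_le_pow_left ?_ _) (Nat.pow_sub_le_descFactorial _ _)
  omega

lemma choose_upper (N c y : ℕ) (h : N ≤ y) : c ! * N.choose c ≤ y ^ c := by
  rw [← Nat.descFactorial_eq_factorial_mul_choose]
  exact le_trans (Nat.descFactorial_le_pow _ _) (Nat.pow_le_pow_left h _)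

lemma volume_gen (k a h l α β γ c d m X Y Z : ℕ) (hk : k = a + l) (hl : l = h * 7)
    (hA : (α * m) ^ a ≤ a ! * Y) (hB : (β * m) ^ h ≤ h ! * Z)
    (hC : k ! * X ≤ (γ * (m + 1)) ^ k)
    (hpow : c * (m + 1) ^ k ≤ d * m ^ k) (hm : 1 ≤ m)
    (hnum : d * (a ! * h ! ^ 7 * γ ^ k) < k ! * (α ^ a * β ^ l)) :
    c * X < Y * Z ^ 7 := by
  have hB7 : (β * m) ^ l ≤ h ! ^ 7 * Z ^ 7 := by
    have := Nat.pow_le_pow_left hB 7
    rw [← pow_mul, mul_pow (h !) Z 7, ← hl] at this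
    exact this
  have hYZ : (α ^ a * β ^ l) * m ^ k ≤ (a ! * h ! ^ 7) * (Y * Z ^ 7) := by
    calc (α ^ a * β ^ l) * m ^ k = (α * m) ^ a * (β * m) ^ l := by
          rw [mul_pow, mul_pow, hk, pow_add]
          ac_rfl
      _ ≤ (a ! * Y) * (h ! ^ 7 * Z ^ 7) := Nat.mul_le_mul hA hB7
      _ = (a ! * h ! ^ 7) * (Y * Z ^ 7) := by ac_rfl
  rw [mul_pow] at hC
  have hmk : 0 < m ^ k := Nat.pow_pos hm
  apply lt_of_mul_lt_mul_left (a := k ! * (a ! * h ! ^ 7)) _ (Nat.zero_le _)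
  generalize k ! = u at *
  generalize a ! * h ! ^ 7 = v at *
  generalize α ^ a * β ^ l = e at *
  generalize γ ^ k = g at *
  generalize m ^ k = x at *
  generalize (m + 1) ^ k = y at *
  calc u * v * (c * X) = (u * X) * (v * c) := by ring
    _ ≤ (g * y) * (v * c) := Nat.mul_le_mul_right _ hC
    _ = (v * g) * (c * y) := by ring
    _ ≤ (v * g) * (d * x) := Nat.mul_le_mul_left _ hpow
    _ = (d * (v * g)) * x := by ring
    _ < (u * e) * x := Nat.mul_lt_mul_of_pos_right hnum hmk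
    _ = u * (e * x) := by ring
    _ ≤ u * (v * (Y * Z ^ 7)) := Nat.mul_le_mul_left _ hYZ
    _ = u * v * (Y * Z ^ 7) := by ring

lemma volume (m f s : ℕ) (hm : 25800 ≤ m) (hf : 4 * m + 1 ≤ f) (hf' : f ≤ 4 * m + 5)
    (hs : s + 1 = f + m) :
    42 * (600 * s + 599).choose 600 <
      (320 * f + 319).choose 320 * (120 * m + 40 * f - 1).choose 40 ^ 7 :=
  volume_gen 600 320 40 280 1280 280 3000 42 43 m _ _ _ rfl rfl
    (choose_lower _ _ _ (by omega)) (choose_lower _ _ _ (by omega))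
    (choose_upper _ _ _ (by omega)) (pow_ratio _ _ _ (by omega)) (by omega) numeric

end Pool.Agent.H96.RK
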